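import Mathlib
import Pool.Agent.N912.PM.Fin

/-!
Values of `n^2 + 1`: for all moduli `m` and `k`, the numbers of prime factors in all the reduced residue
classes modulo `m`, each taken modulo `k`. Every vector which is not excluded by the obvious congruence
obstruction occurs many times among squarefree values, and the vectors of the two factors of the
factorisations `d d' = n^2 + 1` are jointly equidistributed.

The engine (`Pool/Agent/N912/PM`) extends the two-factor method of the starting library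
(`Pool.Agent.W78.EG`, `Pool.Agent.W251.EG`, there for completely multiplicative functions `g₁, g₂` with
`g₁(p) g₂(p)` equal to one constant for all primes `p ≡ 1 mod 4`) to functions for which this product is
constant on the primes `p ≡ 1 mod m` only.
-/

set_option autoImplicit false

namespace Pool.Agent.Results.MP_d639b3_nt.ClassVectorsModK

open Finset Filter

/-- the number of the prime factors of `n`, counted with multiplicity, which are congruent to `a`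
modulo `m` -/
def cnt (m : ℕ) (a : ZMod m) (n : ℕ) : ℕ :=
  n.primeFactorsList.countP (fun p : ℕ => decide ((p : ZMod m) = a))

/-- the class vector of `n`: the numbers `cnt m a n` modulo `k`, for all reduced classes `a` modulo `m` -/
def vec (m k n : ℕ) : (ZMod m)ˣ → ZMod k := fun a => ((cnt m (a : ZMod m) n : ℕ) : ZMod k)

/-- `w` is admissible for the reduced class `b` modulo `m`: there are integers `v a ≥ 0` with
`v a ≡ w a mod k` for all `a`, with `∏ a ^ (v a) = b`, and with `v a = 0` for every class `a` modulo `m`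
which does not contain a sum of two squares -/
def Adm (m k : ℕ) [NeZero m] (b : (ZMod m)ˣ) (w : (ZMod m)ˣ → ZMod k) : Prop :=
  ∃ v : (ZMod m)ˣ → ℕ, (∀ a, v a ≠ 0 → ∃ x y : ZMod m, x ^ 2 + y ^ 2 = (a : ZMod m)) ∧
    ∏ a, a ^ v a = b ∧ ∀ a, (v a : ZMod k) = w a

open scoped Classical in
/-- the pairs `(d, d')` of positive integers with `s₁ X < d ≤ s₂ X`, `s₃ X < d' ≤ s₄ X`, `d ≡ r mod q`
and `d d' = n^2 + 1` for some `n ≥ 1` with `n ≡ u mod q` -/
noncomputable def Pairs (q u r : ℕ) (s₁ s₂ s₃ s₄ : ℝ) (X : ℕ) : Finset (ℕ × ℕ) :=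
  (Icc 1 ⌊s₂ * X⌋₊ ×ˢ Icc 1 ⌊s₄ * X⌋₊).filter (fun p => s₁ * X < p.1 ∧ s₃ * X < p.2 ∧
    p.1 ≡ r [MOD q] ∧ ∃ n : ℕ, 1 ≤ n ∧ p.1 * p.2 = n ^ 2 + 1 ∧ n ≡ u [MOD q])

open scoped Classical in
/-- the difference between the number of the pairs `(d, d')` in `P` with class vectors `w₁`, `w₂` and
the number expected if these vectors are equidistributed over the pairs of vectors admissible for `b₁`
and `b₂` -/
noncomputable def Dev (m k : ℕ) [NeZero m] (P : Finset (ℕ × ℕ)) (b₁ b₂ : (ZMod m)ˣ)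
    (w₁ w₂ : (ZMod m)ˣ → ZMod k) : ℝ :=
  |((P.filter (fun p => vec m k p.1 = w₁ ∧ vec m k p.2 = w₂)).card : ℝ) -
    1 / ((Nat.card {w // Adm m k b₁ w} : ℝ) * (Nat.card {w // Adm m k b₂ w} : ℝ)) * (P.card : ℝ)|

open scoped Classical in
/-- the number of the integers `1 ≤ n ≤ X`, `n ≡ u mod q`, for which `n^2 + 1` is squarefree and has the
class vector `w` -/
noncomputable def count (m k q u : ℕ) (w : (ZMod m)ˣ → ZMod k) (X : ℕ) : ℕ :=
  ((Icc 1 X).filter (fun n : ℕ => n ≡ u [MOD q] ∧ Squarefree (n ^ 2 + 1) ∧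
    vec m k (n ^ 2 + 1) = w)).card

open scoped Classical in
/-- the set of the positive integers `X` with `P X` has logarithmic density `0` -/
def LogNull (P : ℕ → Prop) : Prop :=
  Tendsto (fun Z : ℕ => (∑ X ∈ (Icc 1 Z).filter P, 1 / (X : ℝ)) / Real.log Z) atTop (nhds 0)

theorem adm_iff {m k : ℕ} [NeZero m] (b : (ZMod m)ˣ) (w : (ZMod m)ˣ → ZMod k) :
    Adm m k b w ↔ Pool.Agent.N912.PM.Adm (Pool.Agent.N912.PM.NG 0 1 m) k b w :=
  (Pool.Agent.N912.PM.adm_ng b w).symm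

theorem card_adm {m k : ℕ} [NeZero m] (hk : 1 ≤ k) {b : (ZMod m)ˣ} {w : (ZMod m)ˣ → ZMod k}
    (h : Adm m k b w) : Nat.card {w // Adm m k b w} =
      Nat.card (Pool.Agent.N912.PM.DG (Pool.Agent.N912.PM.NG 0 1 m) k) := by
  rw [← Pool.Agent.N912.PM.card_adm hk (Pool.Agent.N912.PM.adm_base ((adm_iff b w).1 h))]
  exact Nat.card_congr (Equiv.subtypeEquivRight fun w => adm_iff b w)

theorem dev_eq {m k : ℕ} [NeZero m] (hk : 1 ≤ k) {b₁ b₂ : (ZMod m)ˣ} {w₁ w₂ : (ZMod m)ˣ → ZMod k}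
    (h₁ : Adm m k b₁ w₁) (h₂ : Adm m k b₂ w₂) (P : Finset (ℕ × ℕ))
    [DecidablePred (fun p : ℕ × ℕ => Pool.Agent.N912.PM.V1 m k p.1 + Pool.Agent.N912.PM.V2 m k p.2 =
      (w₁, w₂))] : Dev m k P b₁ b₂ w₁ w₂ =
        |((P.filter (fun p => Pool.Agent.N912.PM.V1 m k p.1 + Pool.Agent.N912.PM.V2 m k p.2 =
          (w₁, w₂))).card : ℝ) - 1 / (Nat.card ((Pool.Agent.N912.PM.DG
            (Pool.Agent.N912.PM.NG 0 1 m) k).prod (Pool.Agent.N912.PM.DG
            (Pool.Agent.N912.PM.NG 0 1 m) k)) : ℝ) * P.card| := by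
  classical
  have h : (P.filter (fun p => vec m k p.1 = w₁ ∧ vec m k p.2 = w₂)) =
      (P.filter (fun p => Pool.Agent.N912.PM.V1 m k p.1 + Pool.Agent.N912.PM.V2 m k p.2 =
          (w₁, w₂))) := by
    refine filter_congr fun p _ => ?_
    rw [Pool.Agent.N912.PM.V_add, Prod.mk.injEq]
    exact Iff.rfl
  unfold Dev
  rw [card_adm hk h₁, card_adm hk h₂, Pool.Agent.N912.PM.card_prod, Nat.cast_mul, ← h]

theorem pairs_eq (q u r : ℕ) (s₁ s₂ s₃ s₄ : ℝ) (X : ℕ) :
    Pairs q u r s₁ s₂ s₃ s₄ X = Pool.Agent.N912.PM.SG 0 1 q u r s₁ s₂ s₃ s₄ X := by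
  classical
  unfold Pairs Pool.Agent.N912.PM.SG
  simp only [add_zero, zero_mul]

theorem count_eq (m k q u : ℕ) (w : (ZMod m)ˣ → ZMod k) (X : ℕ) :
    count m k q u w X = Pool.Agent.V11296.CV.cv 0 1 q u (Pool.Agent.N912.PM.cvec m k) w X := by
  classical
  unfold count Pool.Agent.V11296.CV.cv
  congr 1
  ext n
  rw [mem_filter, mem_filter, mem_Icc, mem_range, zero_mul, add_zero, add_zero]
  constructor
  · rintro ⟨⟨h1, h2⟩, h3, h4, h5⟩
    exact ⟨by omega, h1, h3, h4, h5⟩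
  · rintro ⟨h2, h1, h3, h4, h5⟩
    exact ⟨⟨h1, by omega⟩, h3, h4, h5⟩

/-- Let `m, k, q ≥ 1`, `m ∣ q`, and let `u ≥ 0` be such that the class `b` of `u^2 + 1` modulo `m` is
reduced and `u^2 + 1` is not divisible by the square of a prime whose square divides `q`.

1. If `d d' = n^2 + 1` and the class `a` of `d` modulo `m` is reduced, then the class vector of `d` is
   admissible for `a`.
2. Let `r ≡ b₁` and `b₁ b₂ = b` modulo `m`, and let `w₁`, `w₂` be admissible for `b₁`, `b₂`. In all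
   windows, for almost all `X`, the proportion of the pairs `(d, d')` in `Pairs` with class vectors
   `w₁`, `w₂` is the inverse of the number of the pairs of admissible vectors, up to `o(X)` pairs; the
   same holds for the pairs with `d d'` squarefree.
3. For each `w` which is admissible for `b`, every `ε > 0` and almost all `X`, at least
   `X / (log X)^(log 2 + ε)` of the `n ≤ X`, `n ≡ u mod q`, have `n^2 + 1` squarefree with class
   vector `w`.
4. For each `w` which is admissible for `b`, every `δ > 0` and all large `X`, there are at least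
   `X^(1 - δ)` such `n ≤ X`. -/
theorem result (m k q u : ℕ) [NeZero m] (hk : 1 ≤ k) (hq : 1 ≤ q) (hm : m ∣ q) (b : (ZMod m)ˣ)
    (hb : ((u ^ 2 + 1 : ℕ) : ZMod m) = (b : ZMod m))
    (hu : ∀ l : ℕ, l.Prime → l ^ 2 ∣ q → ¬ l ^ 2 ∣ u ^ 2 + 1) :
    (∀ n d d' : ℕ, d * d' = n ^ 2 + 1 → ∀ a : (ZMod m)ˣ, (d : ZMod m) = (a : ZMod m) →
      Adm m k a (vec m k d)) ∧
    (∀ (r : ℕ) (b₁ b₂ : (ZMod m)ˣ) (w₁ w₂ : (ZMod m)ˣ → ZMod k), (r : ZMod m) = (b₁ : ZMod m) →
      b₁ * b₂ = b → Adm m k b₁ w₁ → Adm m k b₂ w₂ →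
      ∀ s₁ s₂ s₃ s₄ : ℝ, 0 ≤ s₁ → s₁ < s₂ → 0 ≤ s₃ → s₃ < s₄ → ∀ ε : ℝ, 0 < ε →
        LogNull (fun X : ℕ => ε * X < Dev m k (Pairs q u r s₁ s₂ s₃ s₄ X) b₁ b₂ w₁ w₂) ∧
        LogNull (fun X : ℕ => ε * X < Dev m k ((Pairs q u r s₁ s₂ s₃ s₄ X).filter
          (fun p => Squarefree (p.1 * p.2))) b₁ b₂ w₁ w₂)) ∧
    (∀ w : (ZMod m)ˣ → ZMod k, Adm m k b w → ∀ ε : ℝ, 0 < ε →
      LogNull (fun X => (count m k q u w X : ℝ) < X / Real.log X ^ (Real.log 2 + ε))) ∧
    ∀ w : (ZMod m)ˣ → ZMod k, Adm m k b w → ∀ δ : ℝ, 0 < δ →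
      ∃ X₀ : ℕ, ∀ X : ℕ, X₀ ≤ X → (X : ℝ) ^ (1 - δ) ≤ count m k q u w X := by
  classical
  obtain ⟨f, χ, hF'⟩ := Pool.Agent.W251.EG.fd4
  have hF : Pool.Agent.W78.EG.Fd (((0 : ℕ) : ℤ)) (((1 : ℕ) : ℤ)) f χ := by exact_mod_cast hF'
  have hS := Pool.Agent.W251.EG.sps9 0 1 (by simp)
  have hm1 : 1 ≤ m := Nat.one_le_iff_ne_zero.2 (NeZero.ne m)
  have : NeZero k := ⟨by omega⟩
  have hb' : ((u ^ 2 + 0 * u + 1 : ℕ) : ZMod m) = (b : ZMod m) := by rw [zero_mul, add_zero]; exact hb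
  have hcop : (u ^ 2 + 0 * u + 1).Coprime m := Pool.Agent.N912.PM.cop_of_unit b hb'
  have hqa : ∀ l : ℕ, l.Prime → l ^ 2 ∣ q → ¬ l ^ 2 ∣ u ^ 2 + 0 * u + 1 := by
    intro l hl hlq
    rw [zero_mul, add_zero]
    exact hu l hl hlq
  refine ⟨?_, ?_, ?_, ?_⟩
  · intro n d d' hdd a ha
    rw [adm_iff]
    exact Pool.Agent.N912.PM.adm_fac hF hm1 hk (n := n) (e := d') (by rw [zero_mul, add_zero]; exact hdd)
      (Pool.Agent.N912.PM.cop_of_unit a ha) ha
  · intro r b₁ b₂ w₁ w₂ hr hbb h₁ h₂ s₁ s₂ s₃ s₄ g1 g2 g3 g4 ε hε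
    have hadp := Pool.Agent.N912.PM.adp_pair hF hm1 hk hm hcop hr
      (by rw [hb', ← hbb, Units.val_mul]) ((adm_iff b₁ w₁).1 h₁) ((adm_iff b₂ w₂).1 h₂)
    have hgg := Pool.Agent.N912.PM.gg_pair hF hm1 (k := k)
    constructor
    · have h := Pool.Agent.N912.PM.outG hF hgg (w₁, w₂) q u r hq hadp s₁ s₂ s₃ s₄ g1 g2 g3 g4 ε hε
      refine h.congr fun N => ?_
      congr 1
      refine sum_congr ?_ fun _ _ => rfl
      ext X
      rw [mem_filter, mem_filter, ← dev_eq hk h₁ h₂, pairs_eq]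
    · have h := Pool.Agent.N912.PM.outGsq hF hgg (w₁, w₂) q u r hq hadp s₁ s₂ s₃ s₄ g1 g2 g3 g4
        ε hε
      refine h.congr fun N => ?_
      congr 1
      refine sum_congr ?_ fun _ _ => rfl
      ext X
      rw [mem_filter, mem_filter, ← dev_eq hk h₁ h₂, pairs_eq]
  · intro w hw ε hε
    have h := Pool.Agent.N912.PM.outN hF hS hm1 hk hq hm hcop hb' ((adm_iff b w).1 hw) hqa ε hε
    refine h.congr fun N => ?_
    congr 1
    refine sum_congr ?_ fun _ _ => rfl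
    ext X
    rw [mem_filter, mem_filter, count_eq]
  · intro w hw δ hδ
    obtain ⟨N₀, h⟩ := Pool.Agent.N912.PM.outNall hF hS hm1 hk hq hm hcop hb' ((adm_iff b w).1 hw)
      hqa δ hδ
    exact ⟨N₀, fun X hX => by rw [count_eq]; exact h X hX⟩

end Pool.Agent.Results.MP_d639b3_nt.ClassVectorsModK
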