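import Pool.Agent.N912.ED.Em4
import Pool.Agent.N222.RC.Rc4
import Pool.Agent.N615.RC.RC0
import Pool.Agent.N87.RC.RC5
import Pool.Agent.N864.RC.Mean
import Pool.Agent.N603.RC.RC3

/-!
# Bilinear sums over the factorisations `α β = n + p ω` in an imaginary quadratic order, `p` prime
(helper912, project EM)

`O t c = ℤ[ω]`, `ω² = t ω - c`, `t ∈ {0, 1}`, `t² < 4c`: every order of every imaginary quadratic field.
-/

set_option autoImplicit false

namespace Pool.Agent.Results.MP_d639b3_nt.BilinearPrimes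

open Finset Filter
open Pool.Agent.W78.GA (Qd nm dt ip ball mem_ball nm_cast nm_mul)
open Pool.Agent.N912.ED
open Pool.Agent.N912.ED.W78EG
open Pool.Agent.V11296.CV (nt ind_eq chnrm)

/-- the order `ℤ[ω]`, `ω² = t ω - c` -/
abbrev O (t c : ℤ) : Type := QuadraticAlgebra ℤ (-c) t

/-- the pairs `(α, β)` with `α β = n + p ω`, `n ≥ 1`, `n ≡ u mod q`, `s₁ X < N(α) ≤ s₂ X`,
`s₃ X < N(β) ≤ s₄ X` -/
def Fac (t c : ℤ) (q : ℕ) (u : ℤ) (s₁ s₂ s₃ s₄ : ℝ) (p : ℕ) (X : ℝ) : Set (O t c × O t c) :=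
  {x | (∃ n : ℤ, 1 ≤ n ∧ (q : ℤ) ∣ n - u ∧ x.1 * x.2 = ⟨n, p⟩) ∧
    s₁ * X < (x.1.norm : ℝ) ∧ (x.1.norm : ℝ) ≤ s₂ * X ∧
    s₃ * X < (x.2.norm : ℝ) ∧ (x.2.norm : ℝ) ≤ s₄ * X}

/-- `H` is equidistributed in every residue class of the order -/
def Equid {t c : ℤ} {G : Type} (H : O t c → G) : Prop :=
  ∀ (M : ℕ) (ρ : O t c) (g : G), 1 ≤ M → Tendsto (fun X : ℝ =>
    ((Set.ncard {z : O t c | z ≠ 0 ∧ (z.norm : ℝ) ≤ X ∧ (M : O t c) ∣ z - ρ ∧ H z = g} : ℝ) -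
      (Set.ncard {z : O t c | z ≠ 0 ∧ (z.norm : ℝ) ≤ X ∧ (M : O t c) ∣ z - ρ} : ℝ) /
        Nat.card G) / X) atTop (nhds 0)

variable {t c : ℤ}

theorem star_mul' (v w : Qd t c) : star v * w = (⟨ip v w, dt v w⟩ : Qd t c) := by
  apply QuadraticAlgebra.ext
  · simp only [QuadraticAlgebra.re_mul, QuadraticAlgebra.re_star, QuadraticAlgebra.im_star]
    unfold ip
    ring
  · simp only [QuadraticAlgebra.im_mul, QuadraticAlgebra.re_star, QuadraticAlgebra.im_star]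
    unfold dt
    ring

theorem norm_nm (hD : t ^ 2 < 4 * c) (z : Qd t c) : z.norm = (nm z : ℤ) := by
  rw [nm_cast hD, QuadraticAlgebra.norm_def]
  ring

theorem norm_nmR (hD : t ^ 2 < 4 * c) (z : Qd t c) : (z.norm : ℝ) = (nm z : ℝ) := by
  rw [norm_nm hD]
  push_cast
  rfl

theorem nm_star (hD : t ^ 2 < 4 * c) (z : Qd t c) : nm (star z) = nm z := by
  have h : (nm (star z) : ℤ) = nm z := by
    rw [← norm_nm hD, ← norm_nm hD, QuadraticAlgebra.norm_star]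
  exact_mod_cast h

theorem dvd_iff (M : ℕ) (z ρ : Qd t c) : (M : O t c) ∣ z - ρ ↔
    (M : ℤ) ∣ z.re - ρ.re ∧ (M : ℤ) ∣ z.im - ρ.im := by
  constructor
  · rintro ⟨w, hw⟩
    have h1 := congrArg QuadraticAlgebra.re hw
    have h2 := congrArg QuadraticAlgebra.im hw
    simp only [QuadraticAlgebra.re_sub, QuadraticAlgebra.im_sub, QuadraticAlgebra.re_mul,
      QuadraticAlgebra.im_mul, QuadraticAlgebra.re_natCast, QuadraticAlgebra.im_natCast] at h1 h2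
    refine ⟨⟨w.re, ?_⟩, ⟨w.im, ?_⟩⟩
    · rw [h1]; push_cast; ring
    · rw [h2]; push_cast; ring
  · rintro ⟨⟨a, ha⟩, ⟨b, hb⟩⟩
    refine ⟨⟨a, b⟩, ?_⟩
    apply QuadraticAlgebra.ext
    · simp only [QuadraticAlgebra.re_sub, QuadraticAlgebra.re_mul,
        QuadraticAlgebra.re_natCast, QuadraticAlgebra.im_natCast]
      rw [ha]; push_cast; ring
    · simp only [QuadraticAlgebra.im_sub,
        QuadraticAlgebra.im_mul, QuadraticAlgebra.re_natCast, QuadraticAlgebra.im_natCast]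
      rw [hb]; push_cast; ring

section

variable {G : Type} [AddCommGroup G] [Finite G]

theorem mem_nt {ψ : AddChar G ℂ} (h : ψ ∈ nt (⊤ : AddSubgroup G)) : ∃ d, ψ d ≠ 1 := by
  classical
  unfold nt at h
  obtain ⟨_, d, _, hd⟩ := Finset.mem_filter.1 h
  exact ⟨d, hd⟩

omit [AddCommGroup G] [Finite G] in
open scoped Classical in
theorem ig_sum {ι : Type} (T : Finset ι) (Φ : ι → G) (g : G) : ∑ z ∈ T, ig g (Φ z) =
    ((((T.filter (fun z => Φ z = g)).card : ℝ) - (T.card : ℝ) / Nat.card G : ℝ) : ℂ) := by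
  unfold ig
  rw [sum_sub_distrib, sum_const, nsmul_eq_mul, sum_boole]
  push_cast
  rw [mul_one_div]

open scoped Classical in
/-- the elements of norm at most `X` in a residue class -/
noncomputable def Bc (t c : ℤ) (M : ℕ) (ρ : Qd t c) (X : ℝ) : Finset (Qd t c) :=
  (ball t c X).filter (fun z => (M : ℤ) ∣ z.re - ρ.re ∧ (M : ℤ) ∣ z.im - ρ.im)

open scoped Classical in
theorem ncard_Bc (hD : t ^ 2 < 4 * c) (M : ℕ) (ρ : Qd t c) (X : ℝ) (P : Qd t c → Prop) :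
    (Set.ncard {z : O t c | z ≠ 0 ∧ (z.norm : ℝ) ≤ X ∧ (M : O t c) ∣ z - ρ ∧ P z} : ℝ) =
      ((Bc t c M ρ X).filter P).card := by
  have h : {z : O t c | z ≠ 0 ∧ (z.norm : ℝ) ≤ X ∧ (M : O t c) ∣ z - ρ ∧ P z} =
      (((Bc t c M ρ X).filter P : Finset (Qd t c)) : Set (Qd t c)) := by
    ext z
    unfold Bc
    have h0 : z ≠ 0 ↔ 1 ≤ nm z := by
      constructor
      · exact fun h => Pool.Agent.W78.GA.nm_pos hD h
      · rintro h rfl
        rw [Pool.Agent.W78.GA.nm_zero] at h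
        omega
    rw [Set.mem_ofPred_eq, mem_coe, mem_filter, mem_filter, mem_ball hD, norm_nmR hD, dvd_iff, h0]
    tauto
  rw [h, Set.ncard_coe_finset]

theorem ncard_Bc' (hD : t ^ 2 < 4 * c) (M : ℕ) (ρ : Qd t c) (X : ℝ) :
    (Set.ncard {z : O t c | z ≠ 0 ∧ (z.norm : ℝ) ≤ X ∧ (M : O t c) ∣ z - ρ} : ℝ) =
      (Bc t c M ρ X).card := by
  classical
  have h := ncard_Bc hD M ρ X (fun _ => True)
  simp only [and_true, filter_true] at h
  exact h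

/-- a nontrivial character of an equidistributed function is aperiodic -/
theorem apd_of (hD : t ^ 2 < 4 * c) {H : Qd t c → G}
    (hH : ∀ z w : Qd t c, z ≠ 0 → w ≠ 0 → H (z * w) = H z + H w) (he : Equid H)
    (ψ : AddChar G ℂ) (hψ : ψ ∈ nt (⊤ : AddSubgroup G)) :
    Apd (Nat.card G) (fun z => ψ (H z)) := by
  classical
  haveI := Fintype.ofFinite G
  refine ⟨cm_chA hH ψ, fun M r₁ r₂ hM ε hε => ?_⟩
  have hψ1 : ψ ≠ 1 := by
    obtain ⟨d, hd⟩ := mem_nt hψ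
    intro h
    rw [h] at hd
    exact hd (by simp)
  have hs0 : ∑ g : G, ψ g = 0 := AddChar.sum_eq_zero_of_ne_one hψ1
  have hG : (0 : ℝ) < Fintype.card G := by exact_mod_cast Fintype.card_pos (α := G)
  have h1 : ∀ g : G, ∃ X₀ : ℝ, ∀ X : ℝ, X₀ ≤ X →
      |(((Bc t c M ⟨r₁, r₂⟩ X).filter (fun z => H z = g)).card : ℝ) -
        ((Bc t c M ⟨r₁, r₂⟩ X).card : ℝ) / Nat.card G| ≤ ε / Fintype.card G * X := by
    intro g
    have h2 := he M ⟨r₁, r₂⟩ g hM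
    rw [Metric.tendsto_atTop] at h2
    obtain ⟨X₀, h3⟩ := h2 (ε / Fintype.card G) (by positivity)
    refine ⟨max X₀ 1, fun X hX => ?_⟩
    have h4 := h3 X ((le_max_left _ _).trans hX)
    have hX1 : (0 : ℝ) < X := by
      have := (le_max_right X₀ 1).trans hX
      linarith
    rw [ncard_Bc hD, ncard_Bc' hD, Real.dist_eq, sub_zero, abs_div, abs_of_pos hX1,
      div_lt_iff₀ hX1] at h4
    exact h4.le
  choose X₀ hX₀ using h1
  refine ⟨∑ g : G, |X₀ g|, fun X hX => ?_⟩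
  have e1 : ∑ z ∈ (ball t c X).filter (fun z => (M : ℤ) ∣ z.re - r₁ ∧ (M : ℤ) ∣ z.im - r₂),
      ψ (H z) = ∑ g : G, ψ g * ((((Bc t c M ⟨r₁, r₂⟩ X).filter (fun z => H z = g)).card : ℝ) -
        ((Bc t c M ⟨r₁, r₂⟩ X).card : ℝ) / Nat.card G : ℝ) := by
    have e2 : ∑ g : G, ψ g * ((((Bc t c M ⟨r₁, r₂⟩ X).filter (fun z => H z = g)).card : ℝ) -
        ((Bc t c M ⟨r₁, r₂⟩ X).card : ℝ) / Nat.card G : ℝ) =
        ∑ g : G, ψ g * (((Bc t c M ⟨r₁, r₂⟩ X).filter (fun z => H z = g)).card : ℂ) := by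
      push_cast
      simp only [mul_sub, sum_sub_distrib]
      rw [← sum_mul, hs0, zero_mul, sub_zero]
    rw [e2]
    have e3 : (ball t c X).filter (fun z => (M : ℤ) ∣ z.re - r₁ ∧ (M : ℤ) ∣ z.im - r₂) =
        Bc t c M ⟨r₁, r₂⟩ X := by
      unfold Bc
      rfl
    rw [e3, ← sum_fiberwise (Bc t c M ⟨r₁, r₂⟩ X) H]
    refine sum_congr rfl fun g _ => ?_
    rw [sum_congr rfl (g := fun _ => ψ g), sum_const, nsmul_eq_mul, mul_comm]
    intro z hz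
    rw [(mem_filter.1 hz).2]
  rw [e1]
  refine (norm_sum_le _ _).trans ?_
  calc ∑ g : G, ‖ψ g * ((((Bc t c M ⟨r₁, r₂⟩ X).filter (fun z => H z = g)).card : ℝ) -
        ((Bc t c M ⟨r₁, r₂⟩ X).card : ℝ) / Nat.card G : ℝ)‖
      ≤ ∑ g : G, ε / Fintype.card G * X := by
        refine sum_le_sum fun g _ => ?_
        rw [norm_mul, chnrm, one_mul, Complex.norm_real, Real.norm_eq_abs]
        exact hX₀ g X (((le_abs_self _).trans (single_le_sum (f := fun g => |X₀ g|)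
          (fun _ _ => abs_nonneg _) (mem_univ g))).trans hX)
    _ = ε * X := by
        rw [sum_const, nsmul_eq_mul, card_univ]
        field_simp

end

/-- `Ω(N z) mod k` -/
noncomputable def Om {t c : ℤ} (k : ℕ) (z : O t c) : ZMod k :=
  ((ArithmeticFunction.cardFactors z.norm.natAbs : ℕ) : ZMod k)

theorem om_nm (hD : t ^ 2 < 4 * c) (k : ℕ) (z : Qd t c) :
    Om k z = ((ArithmeticFunction.cardFactors (nm z) : ℕ) : ZMod k) := by
  unfold Om
  rw [norm_nm hD, Int.natAbs_natCast]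

theorem om_add (hD : t ^ 2 < 4 * c) (k : ℕ) (z w : Qd t c) (hz : z ≠ 0) (hw : w ≠ 0) :
    Om k (z * w) = Om k z + Om k w := by
  rw [om_nm hD, om_nm hD, om_nm hD, nm_mul,
    ArithmeticFunction.cardFactors_mul (Pool.Agent.W78.GA.nm_pos hD hz).ne'
      (Pool.Agent.W78.GA.nm_pos hD hw).ne']
  push_cast
  rfl

/-- `Ω(N z) mod k` is equidistributed in every residue class of every order -/
theorem equid_om (hD : t ^ 2 < 4 * c) (k : ℕ) (hk : 1 ≤ k) : Equid (Om k : O t c → ZMod k) := by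
  classical
  haveI : NeZero k := ⟨by omega⟩
  have hp : S_PNTX t c := Pool.Agent.N87.RC.rc5 Pool.Agent.N615.RC.rc0
    (Pool.Agent.N222.RC.rc4 (Pool.Agent.N864.RC.rc2 Pool.Agent.N864.RC.rc1)
      Pool.Agent.N603.RC.rc3) t c hD
  intro M ρ g hM
  rw [Metric.tendsto_atTop]
  intro ε hε
  have h1 : ∀ ψ : AddChar (ZMod k) ℂ, ∃ X₀ : ℝ, ψ ∈ nt (⊤ : AddSubgroup (ZMod k)) →
      ∀ X : ℝ, X₀ ≤ X → ‖∑ z ∈ Bc t c M ρ X, ψ (Om k z)‖ ≤
        ε / (2 * ((nt (⊤ : AddSubgroup (ZMod k))).card + 1)) * X := by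
    intro ψ
    by_cases hψ : ψ ∈ nt (⊤ : AddSubgroup (ZMod k))
    · have hb : (ψ 1) ^ k = 1 := by
        rw [← AddChar.map_nsmul_eq_pow, nsmul_eq_mul, ZMod.natCast_self, zero_mul,
          AddChar.map_zero_eq_one]
      have hb1 : ψ 1 ≠ 1 := by
        obtain ⟨d, hd⟩ := mem_nt hψ
        intro h
        apply hd
        have e : d = d.val • (1 : ZMod k) := by
          rw [nsmul_eq_mul, mul_one, ZMod.natCast_zmod_val]
        rw [e, AddChar.map_nsmul_eq_pow, h, one_pow]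
      obtain ⟨X₀, h2⟩ := (hp k (ψ 1) hk hb hb1).mean M ρ.re ρ.im hM
        (ε / (2 * ((nt (⊤ : AddSubgroup (ZMod k))).card + 1))) (by positivity)
      refine ⟨X₀, fun _ X hX => ?_⟩
      refine le_trans (le_of_eq ?_) (h2 X hX)
      congr 1
      refine sum_congr (by unfold Bc; rfl) fun z _ => ?_
      unfold bO
      rw [om_nm hD, ← AddChar.map_nsmul_eq_pow, nsmul_eq_mul, mul_one]
    · exact ⟨0, fun h => absurd h hψ⟩
  choose X₀ hX₀ using h1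
  refine ⟨max 1 (∑ ψ ∈ nt (⊤ : AddSubgroup (ZMod k)), |X₀ ψ|), fun X hX => ?_⟩
  have hX1 : (0 : ℝ) < X := by
    have := (le_max_left (1 : ℝ) _).trans hX
    linarith
  rw [ncard_Bc hD, ncard_Bc' hD, Real.dist_eq, sub_zero, abs_div, abs_of_pos hX1,
    div_lt_iff₀ hX1]
  have h2 := four' (Bc t c M ρ X) (fun _ => (1 : ℂ)) (fun z => Om k z) g
  simp only [one_mul] at h2
  have h3 := ig_sum (Bc t c M ρ X) (fun z => Om k z) g
  rw [h3, Complex.norm_real, Real.norm_eq_abs] at h2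
  refine lt_of_le_of_lt h2 ?_
  calc ∑ ψ ∈ nt (⊤ : AddSubgroup (ZMod k)), ‖∑ z ∈ Bc t c M ρ X, ψ (Om k z)‖
      ≤ ∑ ψ ∈ nt (⊤ : AddSubgroup (ZMod k)),
        ε / (2 * ((nt (⊤ : AddSubgroup (ZMod k))).card + 1)) * X := by
        refine sum_le_sum fun ψ hψ => hX₀ ψ hψ X ?_
        refine le_trans ?_ ((le_max_right _ _).trans hX)
        exact (le_abs_self _).trans (single_le_sum (f := fun ψ => |X₀ ψ|)
          (fun _ _ => abs_nonneg _) hψ)
    _ = ((nt (⊤ : AddSubgroup (ZMod k))).card : ℝ) *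
        (ε / (2 * ((nt (⊤ : AddSubgroup (ZMod k))).card + 1)) * X) := by
        rw [sum_const, nsmul_eq_mul]
    _ < ε * X := by
        obtain ⟨n, hn⟩ : ∃ n : ℝ, n = ((nt (⊤ : AddSubgroup (ZMod k))).card : ℝ) := ⟨_, rfl⟩
        have hn0 : 0 ≤ n := by rw [hn]; positivity
        rw [← hn]
        have e : n * (ε / (2 * (n + 1)) * X) = (n / (2 * (n + 1))) * (ε * X) := by
          field_simp
        rw [e]
        have h5 : n / (2 * (n + 1)) < 1 := by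
          rw [div_lt_one (by positivity)]
          linarith
        have h6 : 0 < ε * X := by positivity
        calc n / (2 * (n + 1)) * (ε * X) < 1 * (ε * X) := mul_lt_mul_of_pos_right h5 h6
          _ = ε * X := one_mul _

section

variable {G : Type} [AddCommGroup G] [Finite G]

/-- for large `X` the set `Fac` is the set of the pairs of determinant `p` -/
theorem mem_Fac (ht : t = 0 ∨ t = 1) (hD : t ^ 2 < 4 * c) {q : ℕ} {u : ℤ} {s₁ s₂ s₃ s₄ L : ℝ}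
    (h1 : 0 < s₁) (h3 : 0 < s₃) (hL : 0 < L) (hL2 : s₂ ≤ L) (hL4 : s₄ ≤ L) {Q p : ℕ} (hp : 0 < p)
    (hpQ : p ≤ 2 * Q) {X : ℝ} (hX0 : 0 < X)
    (hX : 4 * (c + 1) * (Q : ℝ) ^ 2 ≤ s₁ * s₃ * X ^ 2) (v w : Qd t c) :
    ((star v, w) : O t c × O t c) ∈ Fac t c q u s₁ s₂ s₃ s₄ p X ↔
      (v, w) ∈ PD t c (s₁ / L) (s₂ / L) (s₃ / L) (s₄ / L) (L * X) p ∧ (q : ℤ) ∣ ip v w - u := by
  classical
  have hc : 0 < c := by nlinarith [sq_nonneg t]
  have e1 : ∀ s : ℝ, s / L * (L * X) = s * X := fun s => by field_simp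
  have hps : (star v * w : Qd t c) = ⟨ip v w, dt v w⟩ := star_mul' v w
  unfold Fac PD
  rw [Set.mem_ofPred_eq, mem_filter, mem_product]
  simp only [e1, norm_nmR hD, nm_star hD, hps]
  have hpp : pp v w = 2 * ip v w + t * dt v w := rfl
  rw [hpp]
  constructor
  · rintro ⟨⟨n, hn1, hn2, hn3⟩, a1, a2, a3, a4⟩
    have e2 : ip v w = n := congrArg QuadraticAlgebra.re hn3
    have e3 : dt v w = (p : ℤ) := congrArg QuadraticAlgebra.im hn3
    have b1 : (0 : ℝ) < nm v := lt_of_lt_of_le (by positivity) a1.le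
    have b2 : (0 : ℝ) < nm w := lt_of_lt_of_le (by positivity) a3.le
    refine ⟨⟨⟨?_, ?_⟩, ?_, ?_, ⟨a1, a2⟩, a3, a4⟩, ?_⟩
    · rw [mem_ball hD]
      refine ⟨by exact_mod_cast b1, a2.trans ?_⟩
      exact mul_le_mul_of_nonneg_right hL2 hX0.le
    · rw [mem_ball hD]
      refine ⟨by exact_mod_cast b2, a4.trans ?_⟩
      exact mul_le_mul_of_nonneg_right hL4 hX0.le
    · exact e3
    · rw [e2, e3]
      have : (0 : ℤ) < p := by exact_mod_cast hp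
      rcases ht with h | h <;> rw [h] <;> nlinarith
    · rw [e2]
      exact hn2
  · rintro ⟨⟨_, hdt, hpos, ⟨a1, a2⟩, a3, a4⟩, hq⟩
    refine ⟨⟨ip v w, ?_, hq, by rw [hdt]⟩, a1, a2, a3, a4⟩
    rw [hdt] at hpos
    by_contra hcon
    push Not at hcon
    have hn0 : ip v w ≤ 0 := by omega
    have key : ∀ n : ℤ, n ≤ 0 → 0 < 2 * n + t * p → t = 1 ∧
        n ^ 2 + t * n * p + c * p ^ 2 ≤ (c + 1) * p ^ 2 := by
      intro n hn hn'
      rcases ht with h | h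
      · rw [h] at hn'
        omega
      · refine ⟨h, ?_⟩
        rw [h] at hn' ⊢
        nlinarith [mul_nonneg (neg_nonneg.2 hn) (by omega : (0 : ℤ) ≤ n + p), sq_nonneg (p : ℤ)]
    obtain ⟨_, key2⟩ := key _ hn0 hpos
    · have hmul : ((nm v : ℤ) * nm w : ℤ) = (ip v w) ^ 2 + t * ip v w * p + c * p ^ 2 := by
        have h5 : nm (star v * w) = nm v * nm w := by rw [nm_mul, nm_star hD]
        have h6 : (nm (star v * w) : ℤ) = (ip v w) ^ 2 + t * ip v w * p + c * p ^ 2 := by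
          rw [nm_cast hD, hps, hdt]
        rw [← h6, h5]
        push_cast
        ring
      have hle : ((nm v : ℤ) * nm w : ℤ) ≤ (c + 1) * p ^ 2 := by
        rw [hmul]
        exact key2
      have hle' : (nm v : ℝ) * nm w ≤ (c + 1) * (p : ℝ) ^ 2 := by exact_mod_cast hle
      have hlt : s₁ * X * (s₃ * X) < (nm v : ℝ) * nm w :=
        mul_lt_mul'' a1 a3 (by positivity) (by positivity)
      have hpR : (p : ℝ) ≤ 2 * Q := by exact_mod_cast hpQ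
      have hp2 : (p : ℝ) ^ 2 ≤ 4 * (Q : ℝ) ^ 2 := by
        have : (p : ℝ) ^ 2 ≤ (2 * Q) ^ 2 := pow_le_pow_left₀ (by positivity) hpR 2
        linarith [this, (by ring : (2 * (Q : ℝ)) ^ 2 = 4 * (Q : ℝ) ^ 2)]
      have hc1 : (0 : ℝ) < c + 1 := by
        have : (0 : ℝ) < c := by exact_mod_cast hc
        linarith
      have h7 : ((c : ℝ) + 1) * (p : ℝ) ^ 2 ≤ (c + 1) * (4 * (Q : ℝ) ^ 2) :=
        mul_le_mul_of_nonneg_left hp2 hc1.le
      nlinarith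

open scoped Classical in
theorem ncard_Fac (ht : t = 0 ∨ t = 1) (hD : t ^ 2 < 4 * c) {q : ℕ} {u : ℤ} {s₁ s₂ s₃ s₄ L : ℝ}
    (h1 : 0 < s₁) (h3 : 0 < s₃) (hL : 0 < L) (hL2 : s₂ ≤ L) (hL4 : s₄ ≤ L) {Q p : ℕ} (hp : 0 < p)
    (hpQ : p ≤ 2 * Q) {X : ℝ} (hX0 : 0 < X)
    (hX : 4 * (c + 1) * (Q : ℝ) ^ 2 ≤ s₁ * s₃ * X ^ 2) (P : O t c × O t c → Prop) :
    (Set.ncard {x ∈ Fac t c q u s₁ s₂ s₃ s₄ p X | P x} : ℝ) =
      (((PD t c (s₁ / L) (s₂ / L) (s₃ / L) (s₄ / L) (L * X) p).filter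
        (fun x => (q : ℤ) ∣ ip x.1 x.2 - u ∧ P (star x.1, x.2))).card : ℝ) := by
  have hinj : Function.Injective (fun x : Qd t c × Qd t c => ((star x.1, x.2) : O t c × O t c)) := by
    rintro ⟨a, b⟩ ⟨a', b'⟩ h
    have h5 := congrArg Prod.fst h
    have h6 := congrArg Prod.snd h
    exact Prod.ext (star_injective h5) h6
  have h : {x ∈ Fac t c q u s₁ s₂ s₃ s₄ p X | P x} =
      ((((PD t c (s₁ / L) (s₂ / L) (s₃ / L) (s₄ / L) (L * X) p).filter
        (fun x => (q : ℤ) ∣ ip x.1 x.2 - u ∧ P (star x.1, x.2))).image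
        (fun x : Qd t c × Qd t c => ((star x.1, x.2) : O t c × O t c)) :
          Finset (O t c × O t c)) : Set (O t c × O t c)) := by
    ext x
    rw [mem_coe, mem_image]
    constructor
    · rintro ⟨hx, hP⟩
      refine ⟨(star x.1, x.2), ?_, by simp⟩
      rw [mem_filter]
      have h5 := (mem_Fac ht hD (q := q) (u := u) h1 h3 hL hL2 hL4 hp hpQ hX0 hX (star x.1) x.2).1
        (by rw [star_star]; exact hx)
      refine ⟨h5.1, h5.2, ?_⟩
      simp only [star_star]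
      exact hP
    · rintro ⟨y, hy, rfl⟩
      rw [mem_filter] at hy
      exact ⟨(mem_Fac ht hD (q := q) (u := u) h1 h3 hL hL2 hL4 hp hpQ hX0 hX y.1 y.2).2
        ⟨hy.1, hy.2.1⟩, hy.2.2⟩
  rw [h, Set.ncard_coe_finset, card_image_of_injective _ hinj]

open scoped Classical in
theorem main (ht : t = 0 ∨ t = 1) (hD : t ^ 2 < 4 * c) (H : O t c → G)
    (hH : ∀ x y : O t c, x ≠ 0 → y ≠ 0 → H (x * y) = H x + H y) (he : Equid H) (q : ℕ)
    (hq : 1 ≤ q) (s₁ s₂ s₃ s₄ : ℝ) (h1 : 0 < s₁) (_h12 : s₁ < s₂) (h3 : 0 < s₃) (h34 : s₃ < s₄)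
    (ε : ℝ) (hε : 0 < ε) : ∃ Q₀ : ℕ, ∀ Q : ℕ, Q₀ ≤ Q → ∃ X₀ : ℝ, ∀ X : ℝ, X₀ ≤ X →
      ∀ (u : ℕ → ℤ) (S : Set (O t c)) (g : G),
      ∑ p ∈ (Ioc Q (2 * Q)).filter Nat.Prime, Real.log p *
        |(Set.ncard {x ∈ Fac t c q (u p) s₁ s₂ s₃ s₄ p X | x.1 ∈ S ∧ H x.2 = g} : ℝ) -
          (Set.ncard {x ∈ Fac t c q (u p) s₁ s₂ s₃ s₄ p X | x.1 ∈ S} : ℝ) / Nat.card G| ≤
        ε * Q * X := by
  have hf : 3 ≤ (4 * c - t ^ 2).toNat := by
    rcases ht with h | h <;> subst h <;> omega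
  have hF : Fd t c (4 * c - t ^ 2).toNat (1 : DirichletCharacter ℂ (4 * c - t ^ 2).toNat) :=
    ⟨ht, by rw [Int.toNat_of_nonneg (by omega)]; ring, hf⟩
  obtain ⟨L, hLd⟩ : ∃ L : ℝ, L = max 1 (max s₂ s₄) := ⟨_, rfl⟩
  have hL1 : 1 ≤ L := by rw [hLd]; exact le_max_left _ _
  have hL2 : s₂ ≤ L := by rw [hLd]; exact (le_max_left _ _).trans (le_max_right _ _)
  have hL4 : s₄ ≤ L := by rw [hLd]; exact (le_max_right _ _).trans (le_max_right _ _)
  have hL : 0 < L := by linarith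
  obtain ⟨Q₀, hQ₀⟩ := em4 hF (H := H) (fun ψ hψ => apd_of hD hH he ψ hψ) hq s₁ s₂ s₃ s₄ h1 h3 h34
    L hL1 hL4 ε hε
  refine ⟨Q₀, fun Q hQ => ?_⟩
  obtain ⟨X₀, hX₀⟩ := hQ₀ Q hQ
  refine ⟨max (max X₀ 1) (4 * (c + 1) * (Q : ℝ) ^ 2 / (s₁ * s₃)), fun X hX u S g => ?_⟩
  have hXa : X₀ ≤ X := (le_max_left _ _).trans ((le_max_left _ _).trans hX)
  have hXb : 1 ≤ X := (le_max_right _ _).trans ((le_max_left _ _).trans hX)
  have hX0 : 0 < X := by linarith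
  have hXc : 4 * (c + 1) * (Q : ℝ) ^ 2 ≤ s₁ * s₃ * X ^ 2 := by
    have h5 := (le_max_right _ _).trans hX
    rw [div_le_iff₀ (by positivity)] at h5
    have h6 : X ≤ X ^ 2 := by nlinarith
    calc 4 * (c + 1) * (Q : ℝ) ^ 2 ≤ X * (s₁ * s₃) := h5
      _ ≤ X ^ 2 * (s₁ * s₃) := mul_le_mul_of_nonneg_right h6 (by positivity)
      _ = s₁ * s₃ * X ^ 2 := by ring
  have hmain := hX₀ X hXa u (fun v => if star v ∈ S then 1 else 0) g (fun z => by
    split_ifs <;> simp)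
  refine le_trans (le_of_eq ?_) (hmain.trans (le_of_eq (by ring)))
  have hPQ : (Ioc Q (2 * Q)).filter Nat.Prime =
      PQ (1 : DirichletCharacter ℂ (4 * c - t ^ 2).toNat) Q := by
    unfold PQ
    refine filter_congr fun p _ => ?_
    simp
  rw [hPQ]
  refine sum_congr rfl fun p hp => ?_
  rw [← hPQ, mem_filter, mem_Ioc] at hp
  have hp0 : 0 < p := by omega
  rw [ncard_Fac ht hD h1 h3 hL hL2 hL4 hp0 hp.1.2 hX0 hXc (fun x => x.1 ∈ S ∧ H x.2 = g),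
    ncard_Fac ht hD h1 h3 hL hL2 hL4 hp0 hp.1.2 hX0 hXc (fun x => x.1 ∈ S)]
  congr 1
  obtain ⟨T, hT⟩ : ∃ T : Finset (Qd t c × Qd t c), T =
      (PD t c (s₁ / L) (s₂ / L) (s₃ / L) (s₄ / L) (L * X) p).filter
        (fun x => (q : ℤ) ∣ ip x.1 x.2 - u p ∧ star x.1 ∈ S) := ⟨_, rfl⟩
  have e1 : ∑ x ∈ PD t c (s₁ / L) (s₂ / L) (s₃ / L) (s₄ / L) (L * X) p,
      ((fun v => if star v ∈ S then (1 : ℂ) else 0) x.1 * (iq q (u p) x.1 x.2 : ℂ)) *
        ig g (H x.2) = ∑ x ∈ T, ig g (H x.2) := by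
    rw [hT, sum_filter]
    refine sum_congr rfl fun x _ => ?_
    unfold iq
    by_cases ha : (q : ℤ) ∣ ip x.1 x.2 - u p <;> by_cases hb : star x.1 ∈ S <;> simp [ha, hb]
  rw [e1, ig_sum, Complex.norm_real, Real.norm_eq_abs]
  have e2 : T.filter (fun x => H x.2 = g) =
      (PD t c (s₁ / L) (s₂ / L) (s₃ / L) (s₄ / L) (L * X) p).filter
        (fun x => (q : ℤ) ∣ ip x.1 x.2 - u p ∧ star x.1 ∈ S ∧ H x.2 = g) := by
    rw [hT, filter_filter]
    refine filter_congr fun x _ => ?_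
    tauto
  rw [e2, hT]
  congr!

end

/-- **Bilinear sums over the factorisations `α β = n + p ω`, `p` prime.** Let `O = ℤ[ω]`,
`ω² = t ω - c`, `t ∈ {0,1}`, `t² < 4c` (any order of an imaginary quadratic field).

(a) Let `H : O → G` be a completely additive function with values in a finite abelian group, which is
equidistributed in every residue class of `O`. Then for every `ε` and all large `Q`, for all `X` large
in terms of `Q`, for every set `S` and every `g`, on average over the primes `p ∈ (Q, 2Q]`, the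
proportion of `H(β) = g` among the factorisations `α β = n + p ω` with `α ∈ S`, `n ≥ 1`,
`n ≡ u_p mod q` and norms in given windows is `1/#G`, up to `ε X` factorisations.

(b) `H(β) = Ω(N β) mod k` satisfies the hypothesis of (a) in every order. -/
theorem result : ∀ t c : ℤ, (t = 0 ∨ t = 1) → t ^ 2 < 4 * c →
    (∀ (G : Type) [AddCommGroup G] [Finite G] (H : O t c → G),
      (∀ x y : O t c, x ≠ 0 → y ≠ 0 → H (x * y) = H x + H y) → Equid H →
      ∀ q : ℕ, 1 ≤ q → ∀ s₁ s₂ s₃ s₄ : ℝ, 0 < s₁ → s₁ < s₂ → 0 < s₃ → s₃ < s₄ →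
      ∀ ε : ℝ, 0 < ε → ∃ Q₀ : ℕ, ∀ Q : ℕ, Q₀ ≤ Q → ∃ X₀ : ℝ, ∀ X : ℝ, X₀ ≤ X →
      ∀ (u : ℕ → ℤ) (S : Set (O t c)) (g : G),
      ∑ p ∈ (Ioc Q (2 * Q)).filter Nat.Prime, Real.log p *
        |(Set.ncard {x ∈ Fac t c q (u p) s₁ s₂ s₃ s₄ p X | x.1 ∈ S ∧ H x.2 = g} : ℝ) -
          (Set.ncard {x ∈ Fac t c q (u p) s₁ s₂ s₃ s₄ p X | x.1 ∈ S} : ℝ) / Nat.card G| ≤
        ε * Q * X) ∧
    ∀ k : ℕ, 1 ≤ k → (∀ x y : O t c, x ≠ 0 → y ≠ 0 → Om k (x * y) = Om k x + Om k y) ∧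
      Equid (Om k : O t c → ZMod k) :=
  fun _ _ ht hD => ⟨fun _ _ _ H hH he q hq s₁ s₂ s₃ s₄ h1 h12 h3 h34 ε hε =>
    main ht hD H hH he q hq s₁ s₂ s₃ s₄ h1 h12 h3 h34 ε hε,
    fun k hk => ⟨fun x y hx hy => om_add hD k x y hx hy, equid_om hD k hk⟩⟩

end Pool.Agent.Results.MP_d639b3_nt.BilinearPrimes
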